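import Mathlib
import Pool.Agent.helper74.TG.SW

/-!
# Least prime not dividing a product of consecutive integers: the prime number theorem

The two forms of the prime number theorem that are used.
-/

set_option autoImplicit false

namespace Pool.Agent.helper31.LP

open Filter Topology Asymptotics Real

/-- `θ(y) = y + o(y / log y)`. -/
theorem theta_pnt {δ : ℝ} (hδ : 0 < δ) :
    ∀ᶠ y : ℝ in atTop, |Chebyshev.theta y - y| ≤ δ * (y / Real.log y) := by
  obtain ⟨C, x₀, hC, h⟩ := Pool.Agent.helper74.TG.psi_pnt 2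
  have h1 : ∀ᶠ y : ℝ in atTop, C ≤ δ / 2 * Real.log y := by
    have := Real.tendsto_log_atTop.const_mul_atTop (show (0:ℝ) < δ / 2 by positivity)
    exact this.eventually_ge_atTop C
  have h2 : ∀ᶠ y : ℝ in atTop, ‖Real.log y ^ (2:ℝ)‖ ≤ δ / 4 * ‖y ^ ((1:ℝ)/2)‖ := by
    have := isLittleO_log_rpow_rpow_atTop (2:ℝ) (show (0:ℝ) < (1:ℝ)/2 by norm_num)
    exact this.def (by positivity)
  filter_upwards [h1, h2, eventually_ge_atTop x₀, eventually_ge_atTop (3:ℝ)] with y h1 h2 h3 h4
  have hy : (0:ℝ) < y := by linarith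
  have hl : 0 < Real.log y := Real.log_pos (by linarith)
  have hp : |Chebyshev.psi y - y| ≤ C * y / Real.log y ^ 2 := h y h3
  have hq := Chebyshev.abs_psi_sub_theta_le_sqrt_mul_log (x := y) (by linarith)
  have e1 : C * y / Real.log y ^ 2 ≤ δ / 2 * (y / Real.log y) := by
    rw [div_le_iff₀ (by positivity)]
    have : δ / 2 * (y / Real.log y) * Real.log y ^ 2 = (δ / 2 * Real.log y) * y := by
      field_simp
    rw [this]
    exact mul_le_mul_of_nonneg_right h1 hy.le
  have e2 : 2 * √y * Real.log y ≤ δ / 2 * (y / Real.log y) := by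
    rw [mul_div_assoc', le_div_iff₀ hl]
    rw [Real.norm_of_nonneg (by positivity), Real.norm_of_nonneg (by positivity),
      ← Real.sqrt_eq_rpow] at h2
    have h5 : Real.log y ^ (2:ℝ) = Real.log y * Real.log y := by
      rw [Real.rpow_two]; ring
    rw [h5] at h2
    have h6 : √y * √y = y := Real.mul_self_sqrt hy.le
    have h7 : 0 ≤ √y := Real.sqrt_nonneg y
    nlinarith [mul_le_mul_of_nonneg_left h2 h7]
  have e3 : Chebyshev.theta y - y = (Chebyshev.psi y - y) - (Chebyshev.psi y - Chebyshev.theta y) := by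
    ring
  rw [e3]
  refine (abs_sub _ _).trans ?_
  linarith

/-- `π(y) = y / log y + o(y / log y)`. -/
theorem pi_pnt {δ : ℝ} (hδ : 0 < δ) :
    ∀ᶠ y : ℝ in atTop, |(Nat.primeCounting ⌊y⌋₊ : ℝ) - y / Real.log y| ≤ δ * (y / Real.log y) := by
  have h1 : ∀ᶠ y : ℝ in atTop, ‖(Nat.primeCounting ⌊y⌋₊ : ℝ) - Chebyshev.theta y / Real.log y‖
      ≤ δ / 2 * ‖y / Real.log y‖ := by
    have hO := Chebyshev.primeCounting_sub_theta_div_log_isBigO
    have ho : (fun x : ℝ => x / Real.log x ^ 2) =o[atTop] (fun x : ℝ => x / Real.log x) := by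
      have hi : (fun x : ℝ => (Real.log x)⁻¹) =o[atTop] (fun _ : ℝ => (1:ℝ)) := by
        rw [isLittleO_one_iff]
        exact Real.tendsto_log_atTop.inv_tendsto_atTop
      have := hi.mul_isBigO (isBigO_refl (fun x : ℝ => x / Real.log x) atTop)
      refine this.congr' ?_ ?_
      · filter_upwards [] with x
        rw [pow_two, div_mul_eq_div_div_swap, mul_comm]
        rfl
      · filter_upwards [] with x
        rw [one_mul]
    exact (hO.trans_isLittleO ho).def (by positivity)
  filter_upwards [h1, theta_pnt (show 0 < δ / 2 by positivity), eventually_ge_atTop (3:ℝ)]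
    with y h1 h2 h4
  have hy : (0:ℝ) < y := by linarith
  have hl : 1 ≤ Real.log y := by
    rw [Real.le_log_iff_exp_le hy]
    exact (Real.exp_one_lt_d9.le.trans (by norm_num)).trans h4
  have hl0 : 0 < Real.log y := by linarith
  rw [Real.norm_eq_abs, Real.norm_of_nonneg (by positivity)] at h1
  have e1 : |Chebyshev.theta y / Real.log y - y / Real.log y| ≤ δ / 2 * (y / Real.log y) := by
    rw [← sub_div, abs_div, abs_of_pos hl0, div_le_iff₀ hl0]
    refine h2.trans ?_
    exact le_mul_of_one_le_right (by positivity) hl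
  have e3 : (Nat.primeCounting ⌊y⌋₊ : ℝ) - y / Real.log y =
      ((Nat.primeCounting ⌊y⌋₊ : ℝ) - Chebyshev.theta y / Real.log y) +
        (Chebyshev.theta y / Real.log y - y / Real.log y) := by ring
  rw [e3]
  refine (abs_add_le _ _).trans ?_
  linarith

end Pool.Agent.helper31.LP
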