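import Mathlib
import Pool.Agent.helper31.LP.Pnt

/-!
# Least prime not dividing a product of consecutive integers: basic facts
-/

set_option autoImplicit false

namespace Pool.Agent.helper31.LP

open Filter Topology Asymptotics Real

/-- `q n k`: the least prime that does not divide the product `(n + 1) (n + 2) ... (n + k)`. -/
noncomputable def q (n k : ℕ) : ℕ :=
  sInf {p : ℕ | p.Prime ∧ ¬ p ∣ ∏ i ∈ Finset.Icc 1 k, (n + i)}

lemma set_nonempty (n k : ℕ) : {p : ℕ | p.Prime ∧ ¬ p ∣ ∏ i ∈ Finset.Icc 1 k, (n + i)}.Nonempty := by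
  obtain ⟨p, hp, hpp⟩ := Nat.exists_infinite_primes ((∏ i ∈ Finset.Icc 1 k, (n + i)) + 1)
  refine ⟨p, hpp, fun hd => ?_⟩
  have hpos : 0 < ∏ i ∈ Finset.Icc 1 k, (n + i) := by
    refine Finset.prod_pos fun i hi => ?_
    rw [Finset.mem_Icc] at hi
    omega
  have := Nat.le_of_dvd hpos hd
  omega

lemma q_spec (n k : ℕ) : (q n k).Prime ∧ ¬ (q n k) ∣ ∏ i ∈ Finset.Icc 1 k, (n + i) :=
  Nat.sInf_mem (set_nonempty n k)

lemma dvd_of_lt_q {n k p : ℕ} (hp : p.Prime) (h : p < q n k) :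
    p ∣ ∏ i ∈ Finset.Icc 1 k, (n + i) := by
  by_contra hd
  exact absurd (Nat.sInf_le (s := {p : ℕ | p.Prime ∧ ¬ p ∣ ∏ i ∈ Finset.Icc 1 k, (n + i)})
    ⟨hp, hd⟩) (not_le.mpr h)

lemma exists_of_lt_q {n k p : ℕ} (hp : p.Prime) (h : p < q n k) :
    ∃ i ∈ Finset.Icc 1 k, p ∣ n + i :=
  (hp.prime.dvd_finsetProd_iff _).mp (dvd_of_lt_q hp h)

/-- If all primes up to `Y` divide the product then `q n k > Y`. -/
lemma lt_q_of_forall {n k Y : ℕ}
    (h : ∀ p : ℕ, p.Prime → p ≤ Y → ∃ i ∈ Finset.Icc 1 k, p ∣ n + i) : Y < q n k := by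
  by_contra hc
  push Not at hc
  obtain ⟨h1, h2⟩ := q_spec n k
  exact h2 ((h1.prime.dvd_finsetProd_iff _).mpr (h _ h1 hc))

/-- The function `L u = u / log u`. -/
noncomputable def L (u : ℝ) : ℝ := u / Real.log u

lemma L_mono {u v : ℝ} (hu : Real.exp 1 ≤ u) (huv : u ≤ v) : L u ≤ L v := by
  have hu0 : 0 < u := (Real.exp_pos 1).trans_le hu
  have hv0 : 0 < v := hu0.trans_le huv
  have hlu : 1 ≤ Real.log u := (Real.le_log_iff_exp_le hu0).mpr hu
  have hlv : 1 ≤ Real.log v := (Real.le_log_iff_exp_le hv0).mpr (hu.trans huv)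
  have h := Real.log_div_self_antitoneOn (show u ∈ {x : ℝ | Real.exp 1 ≤ x} from hu)
    (show v ∈ {x : ℝ | Real.exp 1 ≤ x} from hu.trans huv) huv
  simp only at h
  unfold L
  rw [div_le_div_iff₀ (by linarith) (by linarith)]
  rw [div_le_div_iff₀ hv0 hu0] at h
  linarith

lemma L_pos {u : ℝ} (hu : Real.exp 1 ≤ u) : 0 < L u := by
  have hu0 : 0 < u := (Real.exp_pos 1).trans_le hu
  have hlu : 1 ≤ Real.log u := (Real.le_log_iff_exp_le hu0).mpr hu
  unfold L
  positivity

lemma L_le {u : ℝ} (hu : Real.exp 1 ≤ u) : L u ≤ u := by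
  have hu0 : 0 < u := (Real.exp_pos 1).trans_le hu
  have hlu : 1 ≤ Real.log u := (Real.le_log_iff_exp_le hu0).mpr hu
  exact div_le_self hu0.le hlu

/-- `L (c u) ≤ c L u` for `c ≥ 1`. -/
lemma L_mul_le {c u : ℝ} (hc : 1 ≤ c) (hu : Real.exp 1 ≤ u) : L (c * u) ≤ c * L u := by
  have hu0 : 0 < u := (Real.exp_pos 1).trans_le hu
  have hlu : 1 ≤ Real.log u := (Real.le_log_iff_exp_le hu0).mpr hu
  unfold L
  rw [mul_div_assoc']
  refine div_le_div_of_nonneg_left (by positivity) (by linarith) ?_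
  exact Real.log_le_log hu0 (le_mul_of_one_le_left hu0.le hc)

/-- `L u ≤ η u` for large `u`. -/
lemma L_small {η : ℝ} (hη : 0 < η) : ∀ᶠ u : ℝ in atTop, L u ≤ η * u := by
  filter_upwards [Real.tendsto_log_atTop.eventually_ge_atTop (1 / η),
    eventually_ge_atTop (Real.exp 1)] with u h1 h2
  have hu0 : 0 < u := (Real.exp_pos 1).trans_le h2
  have hlu : 1 ≤ Real.log u := (Real.le_log_iff_exp_le hu0).mpr h2
  unfold L
  rw [div_le_iff₀ (by linarith)]
  rw [div_le_iff₀ hη] at h1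
  nlinarith

/-- `A log u ≤ L u` for large `u`. -/
lemma log_le_L (A : ℝ) : ∀ᶠ u : ℝ in atTop, A * Real.log u ≤ L u := by
  have hA : 0 < |A| + 1 := by positivity
  have h2 := (Real.isLittleO_pow_log_id_atTop (n := 2)).def (show 0 < 1 / (|A| + 1) by positivity)
  filter_upwards [h2, eventually_ge_atTop (Real.exp 1)] with u h2 h3
  have hu0 : 0 < u := (Real.exp_pos 1).trans_le h3
  have hlu : 1 ≤ Real.log u := (Real.le_log_iff_exp_le hu0).mpr h3
  simp only [id] at h2
  rw [Real.norm_of_nonneg (by positivity), Real.norm_of_nonneg hu0.le, div_mul_eq_mul_div, one_mul,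
    le_div_iff₀ hA] at h2
  unfold L
  rw [le_div_iff₀ (by linarith)]
  have : A ≤ |A| + 1 := by linarith [le_abs_self A]
  nlinarith [sq_nonneg (Real.log u)]

lemma L_tendsto : Tendsto L atTop atTop := by
  refine tendsto_atTop_mono' _ (log_le_L 1) ?_
  simpa using Real.tendsto_log_atTop

/-- Pattern counting: if `p ∣ (n+1)...(n+k)` for all `p ∈ S` and the `n` lie in an interval of length
at most `∏ S`, then there are at most `k ^ |S|` such `n`. -/
lemma card_le_of_window (S : Finset ℕ) (hS : ∀ p ∈ S, p.Prime) (k a b : ℕ)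
    (hab : b ≤ a + ∏ p ∈ S, p) (A : Finset ℕ) (hA : ∀ n ∈ A, a ≤ n ∧ n < b)
    (hd : ∀ n ∈ A, ∀ p ∈ S, ∃ i ∈ Finset.Icc 1 k, p ∣ n + i) :
    A.card ≤ k ^ S.card := by
  classical
  have hcard : (S.pi fun _ => Finset.Icc 1 k).card = k ^ S.card := by
    rw [Finset.card_pi]
    simp
  rw [← hcard]
  let F : ℕ → (p : ℕ) → p ∈ S → ℕ := fun n p _ =>
    if h : ∃ i ∈ Finset.Icc 1 k, p ∣ n + i then h.choose else 1
  have hF : ∀ n ∈ A, ∀ p (hp : p ∈ S), F n p hp ∈ Finset.Icc 1 k ∧ p ∣ n + F n p hp := by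
    intro n hn p hp
    have h := hd n hn p hp
    have e : F n p hp = h.choose := by simp only [F, dif_pos h]
    rw [e]
    exact h.choose_spec
  refine Finset.card_le_card_of_injOn F ?_ ?_
  · intro n hn
    rw [Finset.mem_coe, Finset.mem_pi]
    exact fun p hp => (hF n hn p hp).1
  · have key : ∀ n ∈ A, ∀ n' ∈ A, n ≤ n' → F n = F n' → n = n' := by
      intro n hn n' hn' hle he
      have h1 : ∏ p ∈ S, p ∣ n' - n := by
        refine Finset.prod_primes_dvd _ (fun p hp => (hS p hp).prime) fun p hp => ?_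
        have h2 := (hF n hn p hp).2
        have h3 := (hF n' hn' p hp).2
        rw [← he] at h3
        have h4 := Nat.dvd_sub h3 h2
        have h5 : n' + F n p hp - (n + F n p hp) = n' - n := by omega
        rwa [h5] at h4
      have h6 : n' - n < ∏ p ∈ S, p := by
        have := hA n hn
        have := hA n' hn'
        omega
      have h7 := Nat.eq_zero_of_dvd_of_lt h1 h6
      omega
    intro n hn n' hn' he
    rcases le_total n n' with h | h
    · exact key n hn n' hn' h he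
    · exact (key n' hn' n hn h he.symm).symm

/-- The set of primes up to `Y`. -/
lemma prod_primesLE (Y : ℝ) : ((∏ p ∈ Nat.primesLE ⌊Y⌋₊, p : ℕ) : ℝ) = Real.exp (Chebyshev.theta Y) := by
  have h : 0 < primorial ⌊Y⌋₊ := primorial_pos _
  rw [Chebyshev.theta_eq_log_primorial, Real.exp_log (by exact_mod_cast h)]
  congr 1

lemma card_primesLE (Y : ℝ) : (Nat.primesLE ⌊Y⌋₊).card = Nat.primeCounting ⌊Y⌋₊ := by
  simp

end Pool.Agent.helper31.LP
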